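import Pool.Agent.H51.ERA.Stmts
import Pool.Agent.H51.ERA.Base

/-!
MP_e0047e_lc, module ECNT: at most `card N` nodes with E-segments and pairwise distinct periods.
-/

set_option autoImplicit false

namespace Pool.Agent.H19.ERA

open Pool.Agent.H51.ERA

theorem lam_ge (s : ℕ) : 2 ≤ lam s := by unfold lam; omega

theorem nt_of_long {N Q : Type} {L : List Ltr → Prop} {rho : ℕ} (sys : CutSys N Q L rho)
    {q : Q} {K : List (Sg N)} (hK : sys.Cut q K) {j : ℕ} (hj : j < K.length)
    (hl : ps K j + 2 ≤ ps K (j + 1)) : ∃ (n : N) (y : List Ltr), K[j]? = some (Symbol.nonterminal n, y) := by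
  have h0 : K[j]? = some (K[j].1, K[j].2) := by rw [List.getElem?_eq_getElem hj]
  have h1 := ps_succ K h0
  rcases hA : K[j].1 with a | n
  · exfalso
    have hm : (Symbol.terminal a, K[j].2) ∈ K := by
      have := List.getElem_mem hj
      rw [← hA]
      exact this
    have h2 := sys.term q K hK a _ hm
    have h3 := congrArg List.length h2
    simp only [List.length_cons, List.length_nil] at h3
    omega
  · exact ⟨n, K[j].2, by rw [h0, hA]⟩

theorem ECNT_thm (hLEMB : LEMBStmt) : ECNTStmt := by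
  classical
  intro N Q _ L rho sys hL s t b q K hK hY O hO hper
  have key : ∀ ν ∈ O, ∃ (n : N) (y : List Ltr) (j : ℕ), K[j]? = some (Symbol.nonterminal n, y) ∧
      EAt s t K j ν.1 ν.2 := by
    intro ν hν
    obtain ⟨_, j, hj, hE⟩ := hO ν hν
    have hl : ps K j + 2 ≤ ps K (j + 1) := by
      have := hE.1
      have := lam_ge s
      omega
    obtain ⟨n, y, h⟩ := nt_of_long sys hK hj hl
    exact ⟨n, y, j, h, hE⟩
  have hne : Nonempty N := ⟨sys.S⟩
  choose! f y j hf hE using key
  have hinj : Set.InjOn f (O : Set (ℕ × List Bool)) := by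
    intro ν hν ν' hν' he
    have hν1 : ν ∈ O := hν
    have hν2 : ν' ∈ O := hν'
    apply hper ν hν1 ν' hν2
    have h1 := hf ν hν1
    have h2 := hf ν' hν2
    rw [← he] at h2
    exact hLEMB N Q L rho sys hL s t b q K hK hY ν.1 ν'.1 ν.2 ν'.2 (j ν) (j ν') _ _ _
      (hO ν hν1).1 (hO ν' hν2).1 (hE ν hν1) (hE ν' hν2) h1 h2
  have := Finset.card_le_card_of_injOn f (t := Finset.univ) (fun _ _ => Finset.mem_coe.2 (Finset.mem_univ _)) hinj
  simpa using this

end Pool.Agent.H19.ERA
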